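import Pool.Agent.TH279.GR.Defs

set_option autoImplicit false

/-!
# GR-G4: growth of the Hilbert function of a larger prime
-/

open MvPolynomial Module Filter Topology

namespace Pool.Agent.TH279.GR.G4

open Pool.Agent.TH279.GR

variable {a b : ℕ}

/-! ### auxiliary lemmas -/

namespace Aux

lemma bh_mul' {u v u' v' : ℕ} {f g : Co a b} (hf : f ∈ bh a b u v) (hg : g ∈ bh a b u' v') :
    f * g ∈ bh a b (u + u') (v + v') := by
  have h := IsWeightedHomogeneous.mul (w := wt a b) (m := (u, v)) (n := (u', v')) hf hg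
  exact h

lemma bh_le (u v : ℕ) : bh a b u v ≤ homogeneousSubmodule (Ix a b) ℂ (u + v) := by
  intro f hf d hd
  have h1 : Finsupp.weight (wt a b) d = (u, v) := hf hd
  have h2 : ∀ x : ℕ × ℕ, (AddMonoidHom.coprod (AddMonoidHom.id ℕ) (AddMonoidHom.id ℕ)) x
      = x.1 + x.2 := fun x => by simp
  have h3 := congrArg (AddMonoidHom.coprod (AddMonoidHom.id ℕ) (AddMonoidHom.id ℕ)) h1
  rw [h2 (u, v), Finsupp.weight_apply, map_finsuppSum] at h3
  rw [← h3, Finsupp.weight_apply]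
  refine Finsupp.sum_congr fun i _ => ?_
  rw [h2]
  rcases i with i | i <;> simp [wt]

lemma fin_bh (u v : ℕ) : FiniteDimensional ℂ (bh a b u v) := by
  have h1 : (homogeneousSubmodule (Ix a b) ℂ (u + v)).FG :=
    weightedHomogeneousSubmodule_fg ℂ (1 : Ix a b → ℕ) (fun _ => one_ne_zero) (u + v)
  have : FiniteDimensional ℂ (homogeneousSubmodule (Ix a b) ℂ (u + v)) :=
    Module.Finite.iff_fg.2 h1
  exact Submodule.finiteDimensional_of_le (bh_le u v)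

lemma fr_le {V₁ V₂ : Type*} [AddCommGroup V₁] [Module ℂ V₁] [AddCommGroup V₂] [Module ℂ V₂]
    (g : V₁ →ₗ[ℂ] V₂) (A : Submodule ℂ V₁) [FiniteDimensional ℂ A] (W : Submodule ℂ V₁)
    (hWA : W ≤ A) (hWg : W ≤ LinearMap.ker g) :
    finrank ℂ (A.map g) + finrank ℂ W ≤ finrank ℂ A := by
  have h1 := LinearMap.finrank_range_add_finrank_ker (g.domRestrict A)
  rw [LinearMap.range_domRestrict] at h1
  rw [← h1]
  refine Nat.add_le_add_left ?_ _
  rw [← (Submodule.comapSubtypeEquivOfLe hWA).finrank_eq]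
  refine Submodule.finrank_mono ?_
  intro x hx
  exact hWg hx

end Aux

open Aux

/-- for a form `f ∈ Q` of bidegree `(c, e)` not in the prime `P ≤ Q` -/
theorem hf_add_le {P Q : Ideal (Co a b)} (hP : P.IsPrime) (hPQ : P ≤ Q) {f : Co a b} {c e : ℕ}
    (hf0 : f ∈ bh a b c e) (hfQ : f ∈ Q) (hfP : f ∉ P) (u v : ℕ) :
    hf Q (u + c) (v + e) + hf P u v ≤ hf P (u + c) (v + e) := by
  have := hP
  have := fin_bh (a := a) (b := b) (u + c) (v + e)
  set A := (bh a b (u + c) (v + e)).map (Ideal.Quotient.mkₐ ℂ P).toLinearMap with hA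
  set U := (bh a b u v).map (Ideal.Quotient.mkₐ ℂ P).toLinearMap with hU
  set g := (Ideal.Quotient.factorₐ ℂ hPQ).toLinearMap with hg
  have hf' : Ideal.Quotient.mkₐ ℂ P f ≠ 0 := fun h => hfP (Ideal.Quotient.eq_zero_iff_mem.1 h)
  have hinj : Function.Injective (LinearMap.mulLeft ℂ (Ideal.Quotient.mkₐ ℂ P f)) :=
    fun x y hxy => mul_left_cancel₀ hf' hxy
  have h1 := fr_le g A (U.map (LinearMap.mulLeft ℂ (Ideal.Quotient.mkₐ ℂ P f))) ?_ ?_
  · have h2 : finrank ℂ (U.map (LinearMap.mulLeft ℂ (Ideal.Quotient.mkₐ ℂ P f))) = hf P u v :=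
      (Submodule.equivMapOfInjective _ hinj U).finrank_eq.symm
    have h3 : A.map g = (bh a b (u + c) (v + e)).map (Ideal.Quotient.mkₐ ℂ Q).toLinearMap := by
      rw [hA, ← Submodule.map_comp]
      rfl
    rw [h2, h3] at h1
    exact h1
  · rintro _ ⟨_, ⟨x, hx, rfl⟩, rfl⟩
    refine ⟨f * x, ?_, ?_⟩
    · rw [add_comm u c, add_comm v e]
      exact bh_mul' hf0 hx
    · exact map_mul (Ideal.Quotient.mkₐ ℂ P) f x
  · rintro _ ⟨_, ⟨x, hx, rfl⟩, rfl⟩
    rw [LinearMap.mem_ker]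
    change Ideal.Quotient.factorₐ ℂ hPQ (Ideal.Quotient.mkₐ ℂ P f * Ideal.Quotient.mkₐ ℂ P x) = 0
    rw [map_mul]
    have h4 : Ideal.Quotient.factorₐ ℂ hPQ (Ideal.Quotient.mkₐ ℂ P f) = 0 :=
      Ideal.Quotient.eq_zero_iff_mem.2 hfQ
    rw [h4, zero_mul]

namespace Aux

lemma hf_mono' {Q : Ideal (Co a b)} (hQ : Q.IsPrime) (hr : Rel Q) {u v u' v' : ℕ}
    (hu : u ≤ u') (hv : v ≤ v') : hf Q u v ≤ hf Q u' v' := by
  obtain ⟨c, rfl⟩ := Nat.exists_eq_add_of_le hu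
  obtain ⟨e, rfl⟩ := Nat.exists_eq_add_of_le hv
  have h1 := hr c e
  rw [SetLike.not_le_iff_exists] at h1
  obtain ⟨f, hf1, hf2⟩ := h1
  have h2 := hf_add_le hQ (le_top : Q ≤ ⊤) hf1 trivial hf2 u v
  omega

lemma rel_of_le {P Q : Ideal (Co a b)} (hPQ : P ≤ Q) (hr : Rel Q) : Rel P :=
  fun u v h => hr u v (h.trans hPQ)

lemma exists_form {P Q : Ideal (Co a b)} (hQh : BHom Q) (hPQ : P < Q) :
    ∃ (c e : ℕ) (f : Co a b), f ∈ bh a b c e ∧ f ∈ Q ∧ f ∉ P := by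
  obtain ⟨g, hgQ, hgP⟩ := SetLike.exists_of_lt hPQ
  by_contra hne
  push Not at hne
  apply hgP
  rw [← sum_weightedHomogeneousComponent (wt a b) g]
  refine finsum_induction (· ∈ P) P.zero_mem (fun _ _ => P.add_mem) fun m => ?_
  exact hne m.1 m.2 _ (weightedHomogeneousComponent_mem (wt a b) g m) (hQh g hgQ m)

/-- the iterated estimate -/
lemma iter {P Q : Ideal (Co a b)} (hP : P.IsPrime) (hQ : Q.IsPrime) (hr : Rel Q) (hPQ : P ≤ Q)
    {f : Co a b} {c e : ℕ} (hf0 : f ∈ bh a b c e) (hfQ : f ∈ Q) (hfP : f ∉ P) (t n : ℕ) :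
    n * hf Q t t ≤ hf P (t + n * c) (t + n * e) := by
  induction n with
  | zero => simp
  | succ n ih =>
    have h1 := hf_add_le hP hPQ hf0 hfQ hfP (t + n * c) (t + n * e)
    have h2 : hf Q t t ≤ hf Q (t + n * c + c) (t + n * e + e) :=
      hf_mono' hQ hr (by omega) (by omega)
    have h3 : t + (n + 1) * c = t + n * c + c := by ring
    have h4 : t + (n + 1) * e = t + n * e + e := by ring
    rw [h3, h4, add_mul, one_mul]
    omega

lemma iter' {P Q : Ideal (Co a b)} (hP : P.IsPrime) (hQ : Q.IsPrime) (hQh : BHom Q) (hr : Rel Q)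
    (hPQ : P < Q) : ∃ K : ℕ, 1 ≤ K ∧ ∀ t : ℕ, t * hf Q t t ≤ hf P (K * t) (K * t) := by
  obtain ⟨c, e, f, hf0, hfQ, hfP⟩ := exists_form hQh hPQ
  refine ⟨1 + max c e, by omega, fun t => ?_⟩
  refine (iter hP hQ hr hPQ.le hf0 hfQ hfP t t).trans ?_
  refine hf_mono' hP (rel_of_le hPQ.le hr) ?_ ?_
  · have := Nat.mul_le_mul_left t (le_max_left c e)
    nlinarith
  · have := Nat.mul_le_mul_left t (le_max_right c e)
    nlinarith

end Aux

theorem hf_linear {P Q : Ideal (Co a b)} (hP : P.IsPrime) (hPh : BHom P) (hQ : Q.IsPrime)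
    (hQh : BHom Q) (hr : Rel Q) (hPQ : P < Q) (C : ℝ)
    (hC : ∀ᶠ t : ℕ in atTop, (hf P t t : ℝ) ≤ C * t ^ 2) :
    ∃ C' : ℝ, ∀ᶠ t : ℕ in atTop, (hf Q t t : ℝ) ≤ C' * t := by
  obtain ⟨K, hK1, hK⟩ := iter' hP hQ hQh hr hPQ
  have hT : Tendsto (fun t : ℕ => K * t) atTop atTop :=
    tendsto_id.const_mul_atTop' (by omega)
  refine ⟨C * K ^ 2, ?_⟩
  filter_upwards [hT.eventually hC, eventually_ge_atTop 1] with t ht ht1
  have h1 : ((t : ℝ)) * hf Q t t ≤ hf P (K * t) (K * t) := by exact_mod_cast hK t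
  have ht0 : (0 : ℝ) < t := by exact_mod_cast ht1
  push_cast at ht
  refine le_of_mul_le_mul_left ?_ ht0
  calc (t : ℝ) * hf Q t t ≤ _ := h1
    _ ≤ _ := ht
    _ = _ := by ring

theorem hf_bounded {P Q : Ideal (Co a b)} (hP : P.IsPrime) (hPh : BHom P) (hQ : Q.IsPrime)
    (hQh : BHom Q) (hr : Rel Q) (hPQ : P < Q) (C : ℝ)
    (hC : ∀ᶠ t : ℕ in atTop, (hf P t t : ℝ) ≤ C * t) :
    ∃ C' : ℕ, ∀ u v : ℕ, hf Q u v ≤ C' := by
  obtain ⟨K, hK1, hK⟩ := iter' hP hQ hQh hr hPQ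
  have hT : Tendsto (fun t : ℕ => K * t) atTop atTop :=
    tendsto_id.const_mul_atTop' (by omega)
  obtain ⟨t0, ht0⟩ := eventually_atTop.1 (hT.eventually hC)
  refine ⟨⌈C * K⌉₊, fun u v => ?_⟩
  set t := max (max u v) (max t0 1) with ht
  have h1 : hf Q u v ≤ hf Q t t :=
    hf_mono' hQ hr ((le_max_left _ _).trans (le_max_left _ _))
      ((le_max_right _ _).trans (le_max_left _ _))
  have h2 := ht0 t ((le_max_left _ _).trans (le_max_right _ _))
  have h3 : ((t : ℝ)) * hf Q t t ≤ hf P (K * t) (K * t) := by exact_mod_cast hK t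
  have h4 : 1 ≤ t := (le_max_right _ _).trans (le_max_right _ _)
  have h5 : (0 : ℝ) < t := by exact_mod_cast h4
  push_cast at h2
  have h6 : (hf Q t t : ℝ) ≤ C * K := by
    refine le_of_mul_le_mul_left ?_ h5
    calc (t : ℝ) * hf Q t t ≤ _ := h3
      _ ≤ _ := h2
      _ = _ := by ring
  have h7 : (hf Q t t : ℝ) ≤ (⌈C * K⌉₊ : ℝ) := h6.trans (Nat.le_ceil _)
  exact h1.trans (by exact_mod_cast h7)

end Pool.Agent.TH279.GR.G4
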