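import Pool.Agent.TH71.GR.Stm

set_option autoImplicit false

/-!
# Atoms
-/

namespace Pool.Agent.TH75.GR

open Pool.Agent.NPC Pool.Agent.H558R2 Pool.Agent.H622R3.SM Pool.Agent.W920.FC Pool.Agent.W920.FD
open Pool.Agent.TH71.PG Pool.Agent.TH71.GR

theorem vl_nil (g : Reg → ℝ) : vl g [] = 1 := by simp [vl]

theorem vl_cons (g : Reg → ℝ) (r : Reg) (e : List Reg) : vl g (r :: e) = g r * vl g e := by
  simp [vl]

theorem vl_append (g : Reg → ℝ) (e f : List Reg) : vl g (e ++ f) = vl g e * vl g f := by
  simp [vl]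

theorem vl_flatMap {α : Type*} (g : Reg → ℝ) (l : List α) (f : α → List Reg) :
    vl g (l.flatMap f) = (l.map fun a => vl g (f a)).prod := by
  induction l with
  | nil => simp [vl]
  | cons a l ih => rw [List.flatMap_cons, vl_append, ih, List.map_cons, List.prod_cons]

theorem vl_ne {g : Reg → ℝ} {e : List Reg} (h : ∀ r ∈ e, g r ≠ 0) : vl g e ≠ 0 := by
  unfold vl
  intro h0
  rw [List.prod_eq_zero_iff] at h0
  obtain ⟨r, hr, h1⟩ := List.mem_map.1 h0
  exact h r hr h1

theorem vl_aP (g : Reg → ℝ) (s : ℕ) (x : PS) :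
    vl g (aP s x) = ∏ u ∈ Finset.range s, vl g (de x u) := by
  unfold aP
  rw [vl_flatMap, ← List.prod_toFinset _ List.nodup_range, List.toFinset_range]

theorem vl_aq (g : Reg → ℝ) (s : ℕ) (x : PS) (v : ℕ) : vl g (aq s x v) =
    vl g (nu x v) * ∏ u ∈ (Finset.range s).erase v, vl g (de x u) := by
  unfold aq
  rw [vl_append, vl_flatMap, ← List.prod_toFinset _ (List.nodup_range.filter _)]
  congr 1
  refine Finset.prod_congr ?_ fun _ _ => rfl
  ext u
  simp [and_comm]

theorem vl_aq_mul (g : Reg → ℝ) (s : ℕ) (x : PS) (v : ℕ) (hv : v < s) :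
    vl g (aq s x v) * vl g (de x v) = vl g (nu x v) * vl g (aP s x) := by
  rw [vl_aq, vl_aP, mul_assoc, Finset.prod_erase_mul _ _ (Finset.mem_range.2 hv)]

theorem length_flatMap_le {α : Type*} (l : List α) (f : α → List Reg) (t : ℕ)
    (h : ∀ a ∈ l, (f a).length ≤ t) : (l.flatMap f).length ≤ l.length * t := by
  induction l with
  | nil => simp
  | cons a l ih =>
    rw [List.flatMap_cons, List.length_append, List.length_cons]
    have h1 := h a (by simp)
    have h2 := ih fun b hb => h b (by simp [hb])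
    nlinarith

theorem mem_aP {s : ℕ} {x : PS} {r : Reg} (h : r ∈ aP s x) : ∃ u, r ∈ de x u := by
  unfold aP at h
  obtain ⟨u, -, hu⟩ := List.mem_flatMap.1 h
  exact ⟨u, hu⟩

theorem mem_aq {s : ℕ} {x : PS} {v : ℕ} {r : Reg} (h : r ∈ aq s x v) :
    r ∈ nu x v ∨ ∃ u, r ∈ de x u := by
  unfold aq at h
  rcases List.mem_append.1 h with h | h
  · exact Or.inl h
  · obtain ⟨u, -, hu⟩ := List.mem_flatMap.1 h
    exact Or.inr ⟨u, hu⟩

theorem length_aP {s : ℕ} {x : PS} {t : ℕ} (h : ∀ v, (de x v).length ≤ t) :
    (aP s x).length ≤ s * t := by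
  unfold aP
  have := length_flatMap_le (List.range s) (fun v => de x v) t fun a _ => h a
  rwa [List.length_range] at this

theorem length_aq {s : ℕ} {x : PS} {v t : ℕ} (h' : ∀ v, (nu x v).length ≤ t)
    (h : ∀ v, (de x v).length ≤ t) : (aq s x v).length ≤ (s + 1) * t := by
  unfold aq
  rw [List.length_append]
  have h1 := length_flatMap_le ((List.range s).filter fun u => !(decide (u = v)))
    (fun v => de x v) t fun a _ => h a
  have h2 : ((List.range s).filter fun u => !(decide (u = v))).length ≤ s := by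
    refine (List.length_filter_le _ _).trans ?_
    rw [List.length_range]
  have h3 := h' v
  have h4 : ((List.range s).filter fun u => !(decide (u = v))).length * t ≤ s * t :=
    Nat.mul_le_mul_right _ h2
  rw [add_mul, one_mul]
  omega

theorem mem_at0 {m n : ℕ} {c : Cand} {x : PS} {a : List Reg} (h : a ∈ at0 m n c x) :
    a = a1 (m + n) x ∨ ∃ i < m, ∃ j < n, i ∉ c.1 ∧ j ∉ c.2 ∧ a = ae m n x (i, j) := by
  unfold at0 at h
  rcases List.mem_cons.1 h with h | h
  · exact Or.inl h
  · right
    obtain ⟨p, hp, rfl⟩ := List.mem_map.1 h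
    rw [List.mem_filter] at hp
    obtain ⟨hp1, hp2⟩ := hp
    unfold poss at hp1
    rw [List.mem_flatMap] at hp1
    obtain ⟨i, hi, hp1⟩ := hp1
    obtain ⟨j, hj, rfl⟩ := List.mem_map.1 hp1
    simp only [Bool.and_eq_true, Bool.not_eq_true', decide_eq_false_iff_not] at hp2
    exact ⟨i, List.mem_range.1 hi, j, List.mem_range.1 hj, hp2.1, hp2.2, rfl⟩

theorem t_ATOM (h1 : S_POT1) (h2 : S_POT2) (h3 : S_POT3) : S_ATOM := by
  intro m n c g o ho
  have H := h1 m n c g o ho (stp (m + n))
  have H2 := h2 m n c g o ho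
  have H3 := fun σ gM hS => h3 m n c g o σ gM ho hS
  clear h1 h2 h3
  have H3' : ∀ (σ : ℕ → ℝ) (gM : Reg → ℝ), Scaled m n c g σ gM →
      ∃ τ : ℕ → ℝ, (∀ v, τ v ≠ 0) ∧ ∀ v < m + n,
      vl g (nu (pot m n c o (stp (m + n))) v) * vl gM (de (pot m n c o (stp (m + n))) v) *
        (if v < m then τ (lab (pot m n c o (stp (m + n))) v)
          else (τ (lab (pot m n c o (stp (m + n))) v))⁻¹) =
      vl gM (nu (pot m n c o (stp (m + n))) v) * vl g (de (pot m n c o (stp (m + n))) v) * σ v := by
    intro σ gM hS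
    obtain ⟨τ, hτ, h⟩ := H3 σ gM hS
    exact ⟨τ, hτ, h _⟩
  clear H3
  generalize pot m n c o (stp (m + n)) = x at H H2 H3' ⊢
  have hP : ∀ r ∈ aP (m + n) x, Ent m n c r ∧ g r ≠ 0 := by
    intro r hr
    obtain ⟨u, hu⟩ := mem_aP hr
    exact (H u).2.2.2 r hu
  have hQ : ∀ v, ∀ r ∈ aq (m + n) x v, Ent m n c r ∧ g r ≠ 0 := by
    intro v r hr
    rcases mem_aq hr with hr | ⟨u, hu⟩
    · exact (H v).2.2.1 r hr
    · exact (H u).2.2.2 r hu
  have lP : (aP (m + n) x).length ≤ (m + n) * stp (m + n) := length_aP fun v => (H v).2.1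
  have lQ : ∀ v, (aq (m + n) x v).length ≤ (m + n + 1) * stp (m + n) := fun v =>
    length_aq (fun v => (H v).1) fun v => (H v).2.1
  refine ⟨vl_ne fun r hr => (hP r hr).2, fun v _ => vl_ne fun r hr => (hQ v r hr).2, ?_, ?_⟩
  · intro a ha
    rcases mem_at0 ha with rfl | ⟨i, hi, j, hj, hic, hjc, rfl⟩
    · refine ⟨?_, ?_⟩
      · intro r hr
        unfold a1 at hr
        rcases List.mem_append.1 hr with hr | hr
        · exact (hP r hr).1
        · exact (hP r hr).1
      · unfold a1
        rw [List.length_append]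
        rw [add_mul, one_mul]
        omega
    · refine ⟨?_, ?_⟩
      · intro r hr
        unfold ae at hr
        rcases List.mem_cons.1 hr with rfl | hr
        · exact ⟨i, hi, j, hj, rfl, hic, hjc⟩
        · rcases List.mem_append.1 hr with hr | hr
          · exact (hQ _ r hr).1
          · exact (hQ _ r hr).1
      · unfold ae
        rw [List.length_cons, List.length_append]
        have := lQ i
        have := lQ (m + j)
        simp only
        omega
  · intro σ gM hS
    have hM : ∀ r, Ent m n c r → g r ≠ 0 → gM r ≠ 0 := by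
      rintro r ⟨i, hi, j, hj, rfl, hic, hjc⟩ hr
      rw [hS.2 i hi j hj hic hjc]
      exact mul_ne_zero (mul_ne_zero (hS.1 i) hr) (hS.1 _)
    have hMP : vl gM (aP (m + n) x) ≠ 0 := vl_ne fun r hr => hM r (hP r hr).1 (hP r hr).2
    have hMD : ∀ v, vl gM (de x v) ≠ 0 := fun v =>
      vl_ne fun r hr => hM r ((H v).2.2.2 r hr).1 ((H v).2.2.2 r hr).2
    have hD : ∀ v, vl g (de x v) ≠ 0 := fun v => vl_ne fun r hr => ((H v).2.2.2 r hr).2
    refine ⟨?_, ?_⟩
    · unfold a1
      rw [vl_append]
      exact mul_ne_zero hMP hMP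
    · intro a ha
      rcases mem_at0 ha with rfl | ⟨i, hi, j, hj, hic, hjc, rfl⟩
      · exact mul_comm _ _
      · unfold ae a1
        simp only [vl_cons, vl_append]
        rw [hS.2 i hi j hj hic hjc]
        rcases eq_or_ne (g [0, i, j]) 0 with h0 | h0
        · rw [h0]
          simp
        · obtain ⟨τ, hτ, h⟩ := H3' σ gM hS
          have hl := H2 i hi j hj hic hjc h0
          have e1 := h i (by omega)
          have e2 := h (m + j) (by omega)
          rw [if_pos hi] at e1
          rw [if_neg (by omega), ← hl] at e2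
          have q1 := vl_aq_mul g (m + n) x i (by omega)
          have q2 := vl_aq_mul g (m + n) x (m + j) (by omega)
          have q3 := vl_aq_mul gM (m + n) x i (by omega)
          have q4 := vl_aq_mul gM (m + n) x (m + j) (by omega)
          have n1 := hτ (lab x i)
          have n2 := hD i
          have n3 := hD (m + j)
          have n4 := hMD i
          have n5 := hMD (m + j)
          generalize vl g (de x i) = D1 at *
          generalize vl g (de x (m + j)) = D2 at *
          generalize vl gM (de x i) = D3 at *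
          generalize vl gM (de x (m + j)) = D4 at *
          generalize vl g (nu x i) = N1 at *
          generalize vl g (nu x (m + j)) = N2 at *
          generalize vl gM (nu x i) = N3 at *
          generalize vl gM (nu x (m + j)) = N4 at *
          generalize vl g (aq (m + n) x i) = Q1 at *
          generalize vl g (aq (m + n) x (m + j)) = Q2 at *
          generalize vl gM (aq (m + n) x i) = Q3 at *
          generalize vl gM (aq (m + n) x (m + j)) = Q4 at *
          generalize vl g (aP (m + n) x) = P at *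
          generalize vl gM (aP (m + n) x) = P' at *
          generalize τ (lab x i) = t at *
          have e3 : N1 * D3 * (N2 * D4) = N3 * D1 * σ i * (N4 * D2 * σ (m + j)) := by
            rw [← e1, ← e2]
            field_simp
          refine mul_right_cancel₀ (mul_ne_zero (mul_ne_zero n2 n3) (mul_ne_zero n4 n5)) ?_
          calc g [0, i, j] * (Q1 * Q2) * (P' * P') * (D1 * D2 * (D3 * D4))
              = g [0, i, j] * (P' * P') * (D3 * D4) * ((Q1 * D1) * (Q2 * D2)) := by ring
            _ = g [0, i, j] * (P' * P') * (P * P) * (N1 * D3 * (N2 * D4)) := by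
                rw [q1, q2]; ring
            _ = σ i * g [0, i, j] * σ (m + j) * (P * P) * (D1 * D2) * ((N3 * P') * (N4 * P')) := by
                rw [e3]; ring
            _ = σ i * g [0, i, j] * σ (m + j) * (Q3 * Q4) * (P * P) * (D1 * D2 * (D3 * D4)) := by
                rw [← q3, ← q4]; ring

end Pool.Agent.TH75.GR
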