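import Pool.Agent.TH75.GR.ATOM
import Pool.Agent.W920.FD.T_MIN

set_option autoImplicit false

/-!
# Minors
-/

namespace Pool.Agent.TH75.GR

open Pool.Agent.NPC Pool.Agent.H558R2 Pool.Agent.H622R3.SM Pool.Agent.W920.FC Pool.Agent.W920.FD
open Pool.Agent.TH71.PG Pool.Agent.TH71.GR

/-! ### Products of atoms -/

theorem pw_one (g : Reg → ℝ) (A : List (List Reg)) : (1 : ℝ) ∈ pw g A 0 :=
  ⟨[], rfl, by simp, by simp⟩

theorem pw_mul (g : Reg → ℝ) (A : List (List Reg)) (i j : ℕ) : ∀ a ∈ pw g A i, ∀ b ∈ pw g A j,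
    a * b ∈ pw g A (i + j) := by
  rintro _ ⟨l, h1, h2, rfl⟩ _ ⟨l', h3, h4, rfl⟩
  refine ⟨l ++ l', by simp [h1, h3], ?_, by simp⟩
  intro a ha
  rcases List.mem_append.1 ha with h | h
  · exact h2 a h
  · exact h4 a h

theorem pw_pow (g : Reg → ℝ) (A : List (List Reg)) (a : List Reg) (ha : a ∈ A) (j : ℕ) :
    vl g a ^ j ∈ pw g A j := by
  refine ⟨List.replicate j a, by simp, ?_, by simp⟩
  intro b hb
  rw [List.eq_of_mem_replicate hb]
  exact ha

theorem pw_vl (g : Reg → ℝ) (A : List (List Reg)) (a : List Reg) (ha : a ∈ A) :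
    vl g a ∈ pw g A 1 := by
  have := pw_pow g A a ha 1
  rwa [pow_one] at this

theorem pw_catL (g : Reg → ℝ) (G : List (List Reg)) : ∀ (κ : ℕ) (p : ℝ), p ∈ pw g G κ →
    ∃ f ∈ catL G κ, vl g f = p := by
  intro κ
  induction κ with
  | zero =>
    rintro p ⟨l, h1, h2, rfl⟩
    have : l = [] := List.length_eq_zero_iff.1 h1
    subst this
    exact ⟨[], by simp [catL], by simp [vl]⟩
  | succ κ ih =>
    rintro p ⟨l, h1, h2, rfl⟩
    cases l with
    | nil => simp at h1
    | cons a l =>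
      obtain ⟨f, hf, hv⟩ := ih _ ⟨l, by simpa using h1, fun b hb => h2 b (by simp [hb]), rfl⟩
      refine ⟨a ++ f, ?_, ?_⟩
      · unfold catL
        rw [List.mem_flatMap]
        exact ⟨a, h2 a (by simp), List.mem_map.2 ⟨f, hf, rfl⟩⟩
      · rw [vl_append, hv, List.map_cons, List.prod_cons]

/-- Linear maps. -/
theorem SF_lin {P R : Set ℝ} {X Y : ℕ} {v C : ℝ} (hP : ∀ p ∈ P, SF R X (C * p))
    (h : SF P Y v) : SF R (Y * X) (C * v) := by
  induction h with
  | zero => simpa using SF.zero' 0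
  | add _ hp ih =>
    rw [add_mul, one_mul, mul_add]
    exact ih.plus (hP _ hp)
  | sub _ hp ih =>
    rw [add_mul, one_mul, mul_sub, sub_eq_add_neg]
    exact ih.plus (hP _ hp).neg
  | pad _ ih => exact ih.mono (Nat.mul_le_mul_right _ (Nat.le_succ _))

/-! ### The scaled matrix -/

/-- The factor of a column. -/
noncomputable def kap (m n : ℕ) (g : Reg → ℝ) (x : PS) : Option (Fin (m + (n + n))) → ℝ
  | none => 1
  | some p => match (colEquiv m n).symm p with
    | Sum.inl i => vl g (aP (m + n) x) / vl g (aq (m + n) x i)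
    | Sum.inr (Sum.inl c) => vl g (aq (m + n) x (m + c)) / vl g (aP (m + n) x)
    | Sum.inr (Sum.inr c) => vl g (aq (m + n) x (m + c)) / vl g (aP (m + n) x)

/-- Exceptional positions. -/
def Exc (m n : ℕ) (c : Cand) (i : Fin m) (o : Option (Fin (m + (n + n)))) : Prop :=
  (i : ℕ) ∈ c.1 ∨ (∃ d, colN m n o = some d ∧ d ∈ c.2) ∨ o = none

theorem start_entry' {m n : ℕ} (A : Matrix (Fin m) (Fin n) ℝ) (b : Fin m → ℝ) (i : Fin m)
    (j : Fin n) : start A b [0, i, j] = A i j := by
  show (if h : (i : ℕ) < m ∧ (j : ℕ) < n then A ⟨i, h.1⟩ ⟨j, h.2⟩ else 0) = _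
  rw [dif_pos ⟨i.2, j.2⟩]

theorem start_rhs' {m n : ℕ} (A : Matrix (Fin m) (Fin n) ℝ) (b : Fin m → ℝ) (i : Fin m) :
    start A b [1, i] = b i := by
  show (if h : (i : ℕ) < m then b ⟨i, h⟩ else 0) = _
  rw [dif_pos i.2]

theorem mem_poss {m n i j : ℕ} (hi : i < m) (hj : j < n) : (i, j) ∈ poss m n := by
  unfold poss
  rw [List.mem_flatMap]
  exact ⟨i, List.mem_range.2 hi, List.mem_map.2 ⟨j, List.mem_range.2 hj, rfl⟩⟩

theorem a1_mem_at0 (m n : ℕ) (c : Cand) (x : PS) : a1 (m + n) x ∈ at0 m n c x := by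
  unfold at0
  exact List.mem_cons_self

theorem a1_mem_at1 (m n : ℕ) (x : PS) : a1 (m + n) x ∈ at1 m n x := by
  unfold at1
  exact List.mem_cons_self

theorem ae_mem_at0 {m n : ℕ} {c : Cand} (x : PS) {i j : ℕ} (hi : i < m) (hj : j < n)
    (hic : i ∉ c.1) (hjc : j ∉ c.2) : ae m n x (i, j) ∈ at0 m n c x := by
  unfold at0
  rw [List.mem_cons, List.mem_map]
  right
  refine ⟨(i, j), ?_, rfl⟩
  rw [List.mem_filter]
  refine ⟨mem_poss hi hj, ?_⟩
  simp [hic, hjc]

theorem ae_mem_at1 {m n : ℕ} (x : PS) {i j : ℕ} (hi : i < m) (hj : j < n) :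
    ae m n x (i, j) ∈ at1 m n x := by
  unfold at1
  rw [List.mem_cons, List.mem_append, List.mem_map]
  right
  left
  exact ⟨(i, j), mem_poss hi hj, rfl⟩

theorem ab_mem_at1 {m n : ℕ} (x : PS) {i : ℕ} (hi : i < m) : ab m n x i ∈ at1 m n x := by
  unfold at1
  rw [List.mem_cons, List.mem_append, List.mem_map, List.mem_map]
  right
  right
  exact ⟨i, List.mem_range.2 hi, rfl⟩

section

variable {m n : ℕ} (A : Matrix (Fin m) (Fin n) ℝ) (b : Fin m → ℝ) (c : Cand) (x : PS)

/-- The entries of the scaled matrix. -/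
noncomputable def ent (i : Fin m) (o : Option (Fin (m + (n + n)))) : ℝ :=
  vl (start A b) (aP (m + n) x) * vl (start A b) (aP (m + n) x) *
    (vl (start A b) (aq (m + n) x i) / vl (start A b) (aP (m + n) x) * wmat A b i o *
      kap m n (start A b) x o)

variable {A b c x}

theorem ent_cases (hP : vl (start A b) (aP (m + n) x) ≠ 0)
    (hQ : ∀ v < m + n, vl (start A b) (aq (m + n) x v) ≠ 0) (i : Fin m)
    (o : Option (Fin (m + (n + n)))) :
    ent A b x i o = 0 ∨ ent A b x i o = vl (start A b) (a1 (m + n) x) ∨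
    (∃ d : Fin n, colN m n o = some (d : ℕ) ∧
      (ent A b x i o = vl (start A b) (ae m n x (i, d)) ∨
        ent A b x i o = -vl (start A b) (ae m n x (i, d)))) ∨
    (o = none ∧ ent A b x i o = -vl (start A b) (ab m n x i)) := by
  rcases o with _ | p
  · right
    right
    right
    refine ⟨rfl, ?_⟩
    unfold ent ab kap wmat
    rw [vl_cons, vl_append, start_rhs']
    field_simp
  · obtain ⟨q, rfl⟩ := (colEquiv m n).surjective p
    have hw : wmat A b i (some (colEquiv m n q)) = colEntry A i q := by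
      show colEntry A i ((colEquiv m n).symm (colEquiv m n q)) = _
      rw [Equiv.symm_apply_apply]
    rcases q with i' | d | d
    · have hk : kap m n (start A b) x (some (colEquiv m n (Sum.inl i'))) =
          vl (start A b) (aP (m + n) x) / vl (start A b) (aq (m + n) x i') := by
        simp [kap]
      unfold ent
      rw [hw, hk]
      by_cases h : i = i'
      · subst h
        right
        left
        have hQi := hQ i (by omega)
        simp only [colEntry, if_true]
        unfold a1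
        rw [vl_append]
        field_simp
      · left
        simp only [colEntry, if_neg h]
        ring
    · have hk : kap m n (start A b) x (some (colEquiv m n (Sum.inr (Sum.inl d)))) =
          vl (start A b) (aq (m + n) x (m + d)) / vl (start A b) (aP (m + n) x) := by
        simp [kap]
      have hv : ((colEquiv m n (Sum.inr (Sum.inl d)) : Fin (m + (n + n))) : ℕ) = m + d := by
        simp [colEquiv]
      right
      right
      left
      refine ⟨d, ?_, ?_⟩
      · have h1 : ¬ (m + (d : ℕ) < m) := by omega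
        have h2 : m + (d : ℕ) < m + n := by omega
        simp only [colN, Option.bind_some, hv, h1, h2, if_true, if_false]
        simp
      · right
        unfold ent
        rw [hw, hk]
        simp only [colEntry]
        unfold ae
        rw [vl_cons, vl_append]
        simp only [start_entry']
        field_simp
    · have hk : kap m n (start A b) x (some (colEquiv m n (Sum.inr (Sum.inr d)))) =
          vl (start A b) (aq (m + n) x (m + d)) / vl (start A b) (aP (m + n) x) := by
        simp [kap]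
      have hv : ((colEquiv m n (Sum.inr (Sum.inr d)) : Fin (m + (n + n))) : ℕ) =
          m + (n + d) := by
        simp [colEquiv]
        omega
      right
      right
      left
      refine ⟨d, ?_, ?_⟩
      · have h1 : ¬ (m + (n + (d : ℕ)) < m) := by omega
        have h2 : ¬ (m + (n + (d : ℕ)) < m + n) := by omega
        simp only [colN, Option.bind_some, hv, h1, h2, if_false]
        congr 1
        omega
      · left
        unfold ent
        rw [hw, hk]
        simp only [colEntry]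
        unfold ae
        rw [vl_cons, vl_append]
        simp only [start_entry']
        field_simp

theorem ent_at1 (hP : vl (start A b) (aP (m + n) x) ≠ 0)
    (hQ : ∀ v < m + n, vl (start A b) (aq (m + n) x v) ≠ 0) (i : Fin m)
    (o : Option (Fin (m + (n + n)))) :
    SF (pw (start A b) (at1 m n x) 1) 1 (ent A b x i o) := by
  rcases ent_cases hP hQ i o with h | h | ⟨d, hd, h | h⟩ | ⟨ho, h⟩
  · rw [h]
    exact SF.zero' 1
  · rw [h]
    exact SF.of_mem (pw_vl _ _ _ (a1_mem_at1 m n x))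
  · rw [h]
    exact SF.of_mem (pw_vl _ _ _ (ae_mem_at1 x i.2 d.2))
  · rw [h]
    exact (SF.of_mem (pw_vl _ _ _ (ae_mem_at1 x i.2 d.2))).neg
  · rw [h]
    exact (SF.of_mem (pw_vl _ _ _ (ab_mem_at1 x i.2))).neg

theorem ent_at0 (hP : vl (start A b) (aP (m + n) x) ≠ 0)
    (hQ : ∀ v < m + n, vl (start A b) (aq (m + n) x v) ≠ 0) (i : Fin m)
    (o : Option (Fin (m + (n + n)))) (hE : ¬ Exc m n c i o) :
    SF (pw (start A b) (at0 m n c x) 1) 1 (ent A b x i o) := by
  unfold Exc at hE
  push Not at hE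
  obtain ⟨hE1, hE2, hE3⟩ := hE
  rcases ent_cases hP hQ i o with h | h | ⟨d, hd, h | h⟩ | ⟨ho, h⟩
  · rw [h]
    exact SF.zero' 1
  · rw [h]
    exact SF.of_mem (pw_vl _ _ _ (a1_mem_at0 m n c x))
  · rw [h]
    exact SF.of_mem (pw_vl _ _ _ (ae_mem_at0 x i.2 d.2 hE1 (hE2 d hd)))
  · rw [h]
    exact (SF.of_mem (pw_vl _ _ _ (ae_mem_at0 x i.2 d.2 hE1 (hE2 d hd)))).neg
  · exact absurd ho hE3

end

/-- The number of exceptional positions in a product of the Leibniz formula. -/
theorem card_exc {k m n : ℕ} (A : Matrix (Fin m) (Fin n) ℝ) (b : Fin m → ℝ) (c : Cand)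
    (hc1 : c.1.length ≤ k) (hc2 : c.2.length ≤ k) (β : Fin m → Option (Fin (m + (n + n))))
    (hn : ∀ i j, β i = none → β j = none → i = j) (hd : dd (wmat A b) β ≠ 0)
    (σ : Equiv.Perm (Fin m)) (S : Finset (Fin m)) (hS : ∀ j ∈ S, Exc m n c (σ j) (β j)) :
    S.card ≤ 2 * k + 1 := by
  classical
  have h1 : (S.filter fun j => ((σ j : Fin m) : ℕ) ∈ c.1).card ≤ k := by
    refine le_trans (Finset.card_le_card_of_injOn (fun j => ((σ j : Fin m) : ℕ))
      (t := c.1.toFinset) ?_ ?_) ((List.toFinset_card_le _).trans hc1)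
    · intro j hj
      have := (Finset.mem_filter.1 hj).2
      simpa using this
    · intro i _ j _ hij
      exact σ.injective (Fin.ext hij)
  have h2 : (S.filter fun j => ∃ d, colN m n (β j) = some d ∧ d ∈ c.2).card ≤ k := by
    refine le_trans (Finset.card_le_card_of_injOn (fun j => (colN m n (β j)).getD 0)
      (t := c.2.toFinset) ?_ ?_) ((List.toFinset_card_le _).trans hc2)
    · intro j hj
      obtain ⟨d, hd1, hd2⟩ := (Finset.mem_filter.1 hj).2
      simp only [hd1, Option.getD_some]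
      simpa using hd2
    · intro i hi j hj hij
      obtain ⟨d, hd1, hd2⟩ := (Finset.mem_filter.1 hi).2
      obtain ⟨e, he1, he2⟩ := (Finset.mem_filter.1 hj).2
      simp only [hd1, he1, Option.getD_some] at hij
      subst hij
      by_contra hne
      exact hd (TMIN.dd_eq_zero A b β i j d hd1 he1 hne)
  have h3 : (S.filter fun j => β j = none).card ≤ 1 := by
    rw [Finset.card_le_one]
    intro i hi j hj
    exact hn i j (Finset.mem_filter.1 hi).2 (Finset.mem_filter.1 hj).2
  have h4 : S ⊆ (S.filter fun j => ((σ j : Fin m) : ℕ) ∈ c.1) ∪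
      ((S.filter fun j => ∃ d, colN m n (β j) = some d ∧ d ∈ c.2) ∪
        (S.filter fun j => β j = none)) := by
    intro j hj
    rcases hS j hj with h | h | h
    · exact Finset.mem_union_left _ (Finset.mem_filter.2 ⟨hj, h⟩)
    · exact Finset.mem_union_right _ (Finset.mem_union_left _ (Finset.mem_filter.2 ⟨hj, h⟩))
    · exact Finset.mem_union_right _ (Finset.mem_union_right _ (Finset.mem_filter.2 ⟨hj, h⟩))
  have h5 := Finset.card_le_card h4
  have h6 := Finset.card_union_le (S.filter fun j => ((σ j : Fin m) : ℕ) ∈ c.1)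
      ((S.filter fun j => ∃ d, colN m n (β j) = some d ∧ d ∈ c.2) ∪
        (S.filter fun j => β j = none))
  have h7 := Finset.card_union_le (S.filter fun j => ∃ d, colN m n (β j) = some d ∧ d ∈ c.2)
        (S.filter fun j => β j = none)
  omega

/-- The products `e ++ f`. -/
def PB (k m n : ℕ) (x : PS) (B : List (List Reg)) : List (List Reg) :=
  B.flatMap fun e => (catL (at1 m n x) (2 * k + 1)).map fun f => e ++ f

/-- One product of the Leibniz formula. -/
theorem term_SF {k m n X : ℕ} (A : Matrix (Fin m) (Fin n) ℝ) (b : Fin m → ℝ) (c : Cand)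
    (x : PS) (B : List (List Reg)) (C : ℝ) (hc1 : c.1.length ≤ k) (hc2 : c.2.length ≤ k)
    (hP : vl (start A b) (aP (m + n) x) ≠ 0)
    (hQ : ∀ v < m + n, vl (start A b) (aq (m + n) x v) ≠ 0)
    (hB : ∀ p ∈ pw (start A b) (at0 m n c x) m, SF (vs (start A b) B) X (C * p))
    (β : Fin m → Option (Fin (m + (n + n))))
    (hn : ∀ i j, β i = none → β j = none → i = j) (hd : dd (wmat A b) β ≠ 0)
    (σ : Equiv.Perm (Fin m)) :
    SF (vs (start A b) (PB k m n x B)) X
      (C * (vl (start A b) (a1 (m + n) x)) ^ (2 * k + 1) *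
        ∏ j, ent A b x (σ j) (β j)) := by
  classical
  set g := start A b with hg
  obtain ⟨S, hS⟩ : ∃ S : Finset (Fin m), S = Finset.univ.filter
    fun j => Exc m n c (σ j) (β j) := ⟨_, rfl⟩
  have hcard : S.card ≤ 2 * k + 1 := card_exc A b c hc1 hc2 β hn hd σ S (by
    intro j hj
    rw [hS] at hj
    exact (Finset.mem_filter.1 hj).2)
  have p1 : SF (pw g (at0 m n c x) (∑ _j ∈ Sᶜ, 1)) (1 ^ Sᶜ.card)
      (∏ j ∈ Sᶜ, ent A b x (σ j) (β j)) := by
    refine SF.prod (fun i => pw g (at0 m n c x) i) (pw_one _ _) (pw_mul _ _) _ (fun _ => 1) _ ?_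
    intro j hj
    refine ent_at0 hP hQ _ _ ?_
    rw [Finset.mem_compl, hS, Finset.mem_filter] at hj
    push Not at hj
    exact hj (Finset.mem_univ _)
  have p2 : SF (pw g (at1 m n x) (∑ _j ∈ S, 1)) (1 ^ S.card)
      (∏ j ∈ S, ent A b x (σ j) (β j)) := by
    refine SF.prod (fun i => pw g (at1 m n x) i) (pw_one _ _) (pw_mul _ _) _ (fun _ => 1) _ ?_
    intro j _
    exact ent_at1 hP hQ _ _
  rw [one_pow, Finset.sum_const, smul_eq_mul, mul_one] at p1 p2
  have hSm : Sᶜ.card + S.card = m := by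
    have := Finset.card_compl_add_card S
    rwa [Fintype.card_fin] at this
  have p3 : SF (pw g (at0 m n c x) m) 1
      ((∏ j ∈ Sᶜ, ent A b x (σ j) (β j)) * vl g (a1 (m + n) x) ^ S.card) := by
    refine p1.mul_mem (pw_pow g (at0 m n c x) _ (a1_mem_at0 m n c x) S.card) ?_
    intro a ha b hb
    have := pw_mul g (at0 m n c x) _ _ a ha b hb
    rwa [hSm] at this
  have p4 : SF (pw g (at1 m n x) (2 * k + 1)) 1
      ((∏ j ∈ S, ent A b x (σ j) (β j)) * vl g (a1 (m + n) x) ^ (2 * k + 1 - S.card)) := by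
    refine p2.mul_mem (pw_pow g (at1 m n x) _ (a1_mem_at1 m n x) (2 * k + 1 - S.card)) ?_
    intro a ha b hb
    have := pw_mul g (at1 m n x) _ _ a ha b hb
    rwa [Nat.add_sub_cancel' hcard] at this
  have p5 := SF_lin hB p3
  rw [one_mul] at p5
  have p6 : SF (vs g (PB k m n x B)) (X * 1) (C * ((∏ j ∈ Sᶜ, ent A b x (σ j) (β j)) *
      vl g (a1 (m + n) x) ^ S.card) * ((∏ j ∈ S, ent A b x (σ j) (β j)) *
      vl g (a1 (m + n) x) ^ (2 * k + 1 - S.card))) := by
    refine p5.mul p4 ?_
    rintro _ ⟨e, he, rfl⟩ q hq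
    obtain ⟨f, hf, rfl⟩ := pw_catL _ _ _ _ hq
    refine ⟨e ++ f, ?_, vl_append _ _ _⟩
    unfold PB
    rw [List.mem_flatMap]
    exact ⟨e, he, List.mem_map.2 ⟨f, hf, rfl⟩⟩
  rw [mul_one] at p6
  have e1 : C * ((∏ j ∈ Sᶜ, ent A b x (σ j) (β j)) *
      vl g (a1 (m + n) x) ^ S.card) * ((∏ j ∈ S, ent A b x (σ j) (β j)) *
      vl g (a1 (m + n) x) ^ (2 * k + 1 - S.card)) =
      C * (vl g (a1 (m + n) x)) ^ (2 * k + 1) * ∏ j, ent A b x (σ j) (β j) := by
    rw [← Finset.prod_compl_mul_prod S]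
    have : vl g (a1 (m + n) x) ^ (2 * k + 1) = vl g (a1 (m + n) x) ^ S.card *
        vl g (a1 (m + n) x) ^ (2 * k + 1 - S.card) := by
      rw [← pow_add, Nat.add_sub_cancel' hcard]
    rw [this]
    ring
  rwa [e1] at p6

/-- The minors. -/
theorem minor_SF {k m n X : ℕ} (A : Matrix (Fin m) (Fin n) ℝ) (b : Fin m → ℝ) (c : Cand)
    (x : PS) (B : List (List Reg)) (C : ℝ) (hc1 : c.1.length ≤ k) (hc2 : c.2.length ≤ k)
    (hP : vl (start A b) (aP (m + n) x) ≠ 0)
    (hQ : ∀ v < m + n, vl (start A b) (aq (m + n) x v) ≠ 0)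
    (hB : ∀ p ∈ pw (start A b) (at0 m n c x) m, SF (vs (start A b) B) X (C * p))
    (β : Fin m → Option (Fin (m + (n + n))))
    (hn : ∀ i j, β i = none → β j = none → i = j) (hd : dd (wmat A b) β ≠ 0) :
    SF (vs (start A b) (PB k m n x B)) (m.factorial * X)
      (C * (vl (start A b) (a1 (m + n) x)) ^ (2 * k + 1) *
        ((vl (start A b) (a1 (m + n) x)) ^ m *
          ((∏ i : Fin m, vl (start A b) (aq (m + n) x i) / vl (start A b) (aP (m + n) x)) *
            ((∏ j, kap m n (start A b) x (β j)) * dd (wmat A b) β)))) := by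
  classical
  have e1 : (vl (start A b) (a1 (m + n) x)) ^ m *
          ((∏ i : Fin m, vl (start A b) (aq (m + n) x i) / vl (start A b) (aP (m + n) x)) *
            ((∏ j, kap m n (start A b) x (β j)) * dd (wmat A b) β)) =
      (Matrix.of fun i j => ent A b x i (β j)).det := by
    unfold dd
    rw [← Matrix.det_mul_row, ← Matrix.det_mul_column]
    have : (vl (start A b) (a1 (m + n) x)) ^ m = ∏ _i : Fin m, vl (start A b) (a1 (m + n) x) := by
      rw [Finset.prod_const, Finset.card_univ, Fintype.card_fin]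
    rw [this, ← Matrix.det_mul_column]
    congr 1
    ext i j
    simp only [Matrix.of_apply]
    unfold ent a1
    rw [vl_append]
    ring
  rw [e1, Matrix.det_apply, Finset.mul_sum]
  have h1 := SF.sum (P := vs (start A b) (PB k m n x B)) (X := X)
    (Finset.univ : Finset (Equiv.Perm (Fin m)))
    (fun σ => C * (vl (start A b) (a1 (m + n) x)) ^ (2 * k + 1) * (Equiv.Perm.sign σ •
          ∏ i, (Matrix.of fun i j => ent A b x i (β j)) (σ i) i)) (by
      intro σ _
      simp only [Matrix.of_apply]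
      have h := term_SF A b c x B C hc1 hc2 hP hQ hB β hn hd σ
      rcases Int.units_eq_one_or (Equiv.Perm.sign σ) with h2 | h2
      · rw [h2, one_smul]
        exact h
      · rw [h2, Units.neg_smul, one_smul, mul_neg]
        exact h.neg)
  rwa [Finset.card_univ, Fintype.card_perm, Fintype.card_fin] at h1

theorem kap_ne {m n : ℕ} {g : Reg → ℝ} {x : PS} (hP : vl g (aP (m + n) x) ≠ 0)
    (hQ : ∀ v < m + n, vl g (aq (m + n) x v) ≠ 0) (p : Fin (m + (n + n))) :
    ∃ q1 ∈ kl m n x, ∃ q2 ∈ kl m n x, vl g q1 ≠ 0 ∧ vl g q2 ≠ 0 ∧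
      kap m n g x (some p) = vl g q1 / vl g q2 := by
  have h1 : aP (m + n) x ∈ kl m n x := List.mem_cons_self
  have h2 : ∀ v < m + n, aq (m + n) x v ∈ kl m n x := fun v hv =>
    List.mem_cons_of_mem _ (List.mem_map.2 ⟨v, List.mem_range.2 hv, rfl⟩)
  obtain ⟨q, rfl⟩ := (colEquiv m n).surjective p
  rcases q with i | d | d
  · exact ⟨_, h1, _, h2 i (by omega), hP, hQ i (by omega), by simp [kap]⟩
  · exact ⟨_, h2 (m + d) (by omega), _, h1, hQ _ (by omega), hP, by simp [kap]⟩
  · exact ⟨_, h2 (m + d) (by omega), _, h1, hQ _ (by omega), hP, by simp [kap]⟩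

theorem t_MINR : S_MINR := by
  classical
  intro k m n T h X A b c x B C hc1 hc2 hC hP hQ hB hT hX β hβ j hj
  obtain ⟨γ, hγ⟩ : ∃ γ : Fin m → Option (Fin (m + (n + n))), γ = fun j => some (β j) := ⟨_, rfl⟩
  rw [← hγ] at hβ hj ⊢
  have m1 := minor_SF A b c x B C hc1 hc2 hP hQ hB γ (by
    intro i j hi
    rw [hγ] at hi
    simp at hi) hβ
  have m2 := minor_SF A b c x B C hc1 hc2 hP hQ hB (Function.update γ j none) (by
    have key : ∀ i, Function.update γ j none i = none → i = j := by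
      intro i hi
      by_contra hne
      rw [Function.update_of_ne hne, hγ] at hi
      simp at hi
    intro i l hi hl
    rw [key i hi, key l hl]) hj
  obtain ⟨q1, hq1, q2, hq2, hn1, hn2, hk⟩ := kap_ne hP hQ (β j)
  have a1ne : vl (start A b) (a1 (m + n) x) ≠ 0 := by
    unfold a1
    rw [vl_append]
    exact mul_ne_zero hP hP
  have prne : (∏ i : Fin m, vl (start A b) (aq (m + n) x i) / vl (start A b) (aP (m + n) x)) ≠ 0 :=
    Finset.prod_ne_zero_iff.2 fun i _ => div_ne_zero (hQ i (by omega)) hP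
  have kne : ∀ o, kap m n (start A b) x o ≠ 0 := by
    rintro (_ | p)
    · simp [kap]
    · obtain ⟨q1, -, q2, -, hn1, hn2, hk⟩ := kap_ne hP hQ p
      rw [hk]
      exact div_ne_zero hn1 hn2
  have kprod : (∏ i, kap m n (start A b) x (γ i)) =
      (∏ i, kap m n (start A b) x (Function.update γ j none i)) *
        (vl (start A b) q1 / vl (start A b) q2) := by
    rw [← Finset.mul_prod_erase Finset.univ _ (Finset.mem_univ j),
      ← Finset.mul_prod_erase Finset.univ (fun i => kap m n (start A b) x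
        (Function.update γ j none i)) (Finset.mem_univ j)]
    have e1 : kap m n (start A b) x (Function.update γ j none j) = 1 := by
      rw [Function.update_self]
      rfl
    have e2 : ∏ i ∈ Finset.univ.erase j, kap m n (start A b) x (Function.update γ j none i) =
        ∏ i ∈ Finset.univ.erase j, kap m n (start A b) x (γ i) := by
      refine Finset.prod_congr rfl fun i hi => ?_
      rw [Function.update_of_ne (Finset.ne_of_mem_erase hi)]
    rw [e1, e2, ← hk, one_mul, mul_comm]
    rw [hγ]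
  have kne' : (∏ i, kap m n (start A b) x (Function.update γ j none i)) ≠ 0 :=
    Finset.prod_ne_zero_iff.2 fun i _ => kne _
  have n1 := m1.mul_mem (Q := vs (start A b) (kl m n x))
    (R := vs (start A b) (lfin k m n x B)) (p := vl (start A b) q2) ⟨q2, hq2, rfl⟩ (by
    rintro _ ⟨e, he, rfl⟩ _ ⟨q, hq, rfl⟩
    unfold PB at he
    obtain ⟨e1, he1, he⟩ := List.mem_flatMap.1 he
    obtain ⟨f, hf, rfl⟩ := List.mem_map.1 he
    refine ⟨e1 ++ (f ++ q), ?_, ?_⟩
    · unfold lfin
      rw [List.mem_cons, List.mem_flatMap]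
      right
      refine ⟨e1, he1, ?_⟩
      rw [List.mem_flatMap]
      exact ⟨f, hf, List.mem_map.2 ⟨q, hq, rfl⟩⟩
    · simp only [vl_append]
      ring)
  have n2 := m2.mul_mem (Q := vs (start A b) (kl m n x))
    (R := vs (start A b) (lfin k m n x B)) (p := vl (start A b) q1) ⟨q1, hq1, rfl⟩ (by
    rintro _ ⟨e, he, rfl⟩ _ ⟨q, hq, rfl⟩
    unfold PB at he
    obtain ⟨e1, he1, he⟩ := List.mem_flatMap.1 he
    obtain ⟨f, hf, rfl⟩ := List.mem_map.1 he
    refine ⟨e1 ++ (f ++ q), ?_, ?_⟩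
    · unfold lfin
      rw [List.mem_cons, List.mem_flatMap]
      right
      refine ⟨e1, he1, ?_⟩
      rw [List.mem_flatMap]
      exact ⟨f, hf, List.mem_map.2 ⟨q, hq, rfl⟩⟩
    · simp only [vl_append]
      ring)
  have hW : ∀ p ∈ vs (start A b) (lfin k m n x B), ∃ l < (lfin k m n x B).length,
      wl (start A b) T (lfin k m n x B) l = p := by
    rintro _ ⟨e, he, rfl⟩
    obtain ⟨l, hl, rfl⟩ := List.getElem_of_mem he
    refine ⟨l, hl, ?_⟩
    unfold wl vl
    rw [List.getD_eq_getElem _ _ hl]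
    exact pv_eq rfl _ _ (hT _ (List.getElem_mem hl))
  obtain ⟨y', hy1', hy2'⟩ := SF.vec hW n1
  obtain ⟨y, hy1, hy2⟩ := SF.vec hW n2
  refine ⟨y, y', hy1.trans hX, hy1'.trans hX, ?_, ?_, ?_⟩
  · rw [← hy2]
    exact mul_ne_zero (mul_ne_zero (mul_ne_zero hC (pow_ne_zero _ a1ne))
      (mul_ne_zero (pow_ne_zero _ a1ne) (mul_ne_zero prne (mul_ne_zero kne' hj)))) hn1
  · rw [← hy2']
    exact mul_ne_zero (mul_ne_zero (mul_ne_zero hC (pow_ne_zero _ a1ne))
      (mul_ne_zero (pow_ne_zero _ a1ne) (mul_ne_zero prne (mul_ne_zero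
        (Finset.prod_ne_zero_iff.2 fun i _ => kne _) hβ)))) hn2
  · rw [← hy2, ← hy2', ← abs_div, ← abs_div, kprod]
    congr 1
    field_simp

end Pool.Agent.TH75.GR
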